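import Pool.Agent.MTF.StmtsA

/-! MTF, module SPL: the case of an orthogonal decomposition. -/

set_option autoImplicit false

namespace Pool.Agent.MTF.H3

open Matrix

section num

/-- the numerical part of SPL -/
theorem numer (num : NumStmt) (k κ : ℕ) (x y : ℕ → ℕ)
    (hx : ∀ p ≤ 2 * k + 1, x (2 * k + 1 - p) = x p) (hy : ∀ p ≤ 2 * k + 1, y (2 * k + 1 - p) = y p)
    (hκ : ∀ p, x p + y p ≤ κ) (h1 : 1 ≤ ∑ p ∈ Finset.range (2 * k + 2), x p)
    (h2 : 1 ≤ ∑ p ∈ Finset.range (2 * k + 2), y p) :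
    ∑ p ∈ Finset.range (2 * k + 2), x p + ∑ p ∈ Finset.range (2 * k + 2), y p ≤
      (∑ p ∈ Finset.range (2 * k + 2), ∑ q ∈ Finset.range (2 * k + 2),
        if p + q < 2 * k + 1 then x p * y q else 0) + κ + 1 := by
  -- the upper halves
  have half : ∀ z : ℕ → ℕ, (∀ p ≤ 2 * k + 1, z (2 * k + 1 - p) = z p) →
      ∑ p ∈ Finset.range (2 * k + 2), z p = 2 * ∑ i : Fin (k + 1), z (k + 1 + i) := by
    intro z hz
    have e1 : 2 * k + 2 = (k + 1) + (k + 1) := by ring
    rw [e1, Finset.sum_range_add, Finset.sum_range (fun i => z (k + 1 + i)),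
      ← Finset.sum_range_reflect z (k + 1), Finset.sum_range (fun j => z (k + 1 - 1 - j))]
    have e2 : ∑ i : Fin (k + 1), z (k + 1 - 1 - (i : ℕ)) = ∑ i : Fin (k + 1), z (k + 1 + i) := by
      refine Finset.sum_congr rfl fun i _ => ?_
      have hi := i.2
      rw [← hz (k + 1 + i) (by omega)]
      congr 1
      omega
    rw [e2]
    ring
  have hX := half x hx
  have hY := half y hy
  have hXY := half (fun p => x p * y p) fun p hp => by
    change x (2 * k + 1 - p) * y (2 * k + 1 - p) = x p * y p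
    rw [hx p hp, hy p hp]
  have hnum := num (Fin (k + 1)) (fun i => x (k + 1 + i)) (fun i => y (k + 1 + i)) κ
    (fun i => hκ _) (by omega) (by omega)
  -- the sum over the square
  obtain ⟨F, hF⟩ : ∃ F, F = ∑ p ∈ Finset.range (2 * k + 2), ∑ q ∈ Finset.range (2 * k + 2),
        if p + q < 2 * k + 1 then x p * y q else 0 := ⟨_, rfl⟩
  have hsq : (∑ p ∈ Finset.range (2 * k + 2), x p) * (∑ q ∈ Finset.range (2 * k + 2), y q) =
      2 * F + ∑ p ∈ Finset.range (2 * k + 2), x p * y p := by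
    have e1 : (∑ p ∈ Finset.range (2 * k + 2), x p) * (∑ q ∈ Finset.range (2 * k + 2), y q) =
        ∑ p ∈ Finset.range (2 * k + 2), ∑ q ∈ Finset.range (2 * k + 2),
          ((if p + q < 2 * k + 1 then x p * y q else 0) +
            (if 2 * k + 1 < p + q then x p * y q else 0) +
            if q = 2 * k + 1 - p then x p * y q else 0) := by
      rw [Finset.sum_mul_sum]
      refine Finset.sum_congr rfl fun p hp => Finset.sum_congr rfl fun q hq => ?_
      rw [Finset.mem_range] at hp hq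
      rcases lt_trichotomy (p + q) (2 * k + 1) with h | h | h
      · rw [if_pos h, if_neg (by omega), if_neg (by omega)]
        ring
      · rw [if_neg (by omega), if_neg (by omega), if_pos (by omega)]
        ring
      · rw [if_neg (by omega), if_pos h, if_neg (by omega)]
        ring
    have e2 : ∑ p ∈ Finset.range (2 * k + 2), ∑ q ∈ Finset.range (2 * k + 2),
          (if 2 * k + 1 < p + q then x p * y q else 0) = F := by
      rw [hF, ← Finset.sum_range_reflect (fun p => ∑ q ∈ Finset.range (2 * k + 2),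
        if 2 * k + 1 < p + q then x p * y q else 0) (2 * k + 2)]
      refine Finset.sum_congr rfl fun p hp => ?_
      rw [Finset.mem_range] at hp
      rw [← Finset.sum_range_reflect (fun q =>
        if 2 * k + 1 < 2 * k + 2 - 1 - p + q then x (2 * k + 2 - 1 - p) * y q else 0) (2 * k + 2)]
      refine Finset.sum_congr rfl fun q hq => ?_
      rw [Finset.mem_range] at hq
      have e3 : x (2 * k + 2 - 1 - p) = x p := by
        rw [← hx p (by omega)]
        congr 1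
      have e4 : y (2 * k + 2 - 1 - q) = y q := by
        rw [← hy q (by omega)]
        congr 1
      rw [e3, e4]
      by_cases h : p + q < 2 * k + 1
      · rw [if_pos (by omega), if_pos h]
      · rw [if_neg (by omega), if_neg h]
    have e3 : ∑ p ∈ Finset.range (2 * k + 2), ∑ q ∈ Finset.range (2 * k + 2),
          (if q = 2 * k + 1 - p then x p * y q else 0) =
        ∑ p ∈ Finset.range (2 * k + 2), x p * y p := by
      refine Finset.sum_congr rfl fun p hp => ?_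
      rw [Finset.mem_range] at hp
      rw [Finset.sum_ite_eq', if_pos (by rw [Finset.mem_range]; omega), hy p (by omega)]
    rw [e1]
    simp only [Finset.sum_add_distrib]
    rw [e2, e3, ← hF]
    ring
  rw [hX, hY, hXY] at hsq
  rw [hX, hY, ← hF]
  obtain ⟨A, hA⟩ : ∃ A, A = ∑ i : Fin (k + 1), x (k + 1 + i) := ⟨_, rfl⟩
  obtain ⟨B, hB⟩ : ∃ B, B = ∑ i : Fin (k + 1), y (k + 1 + i) := ⟨_, rfl⟩
  obtain ⟨C, hC⟩ : ∃ C, C = ∑ i : Fin (k + 1), x (k + 1 + i) * y (k + 1 + i) := ⟨_, rfl⟩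
  rw [← hA, ← hB, ← hC] at hsq hnum
  rw [← hA, ← hB]
  have h3 : 2 * A * (2 * B) = 4 * (A * B) := by ring
  rw [h3] at hsq
  omega

end num

variable {d : Type} [Fintype d] [DecidableEq d]

/-- the bilinear form -/
noncomputable def bf (Ψ : Matrix d d ℂ) : (d → ℂ) →ₗ[ℂ] (d → ℂ) →ₗ[ℂ] ℂ := Matrix.toLinearMap₂' ℂ Ψ

theorem bf_apply (Ψ : Matrix d d ℂ) (x y : d → ℂ) : bf Ψ x y = x ⬝ᵥ (Ψ *ᵥ y) :=
  Matrix.toLinearMap₂'_apply' Ψ x y

theorem bf_skew {Ψ : Matrix d d ℂ} (h : Ψᵀ = -Ψ) (x y : d → ℂ) : bf Ψ x y = -bf Ψ y x := by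
  rw [bf_apply, bf_apply, Matrix.dotProduct_mulVec, dotProduct_comm, ← Matrix.mulVec_transpose, h,
    Matrix.neg_mulVec, dotProduct_neg]

/-- the infinitesimal isometry `x ↦ Ψ(u, x) u' + Ψ(u', x) u` -/
def sy (Ψ : Matrix d d ℂ) (u u' : d → ℂ) : Matrix d d ℂ :=
  vecMulVec u' (u ᵥ* Ψ) + vecMulVec u (u' ᵥ* Ψ)

theorem sy_mulVec (Ψ : Matrix d d ℂ) (u u' x : d → ℂ) :
    sy Ψ u u' *ᵥ x = bf Ψ u x • u' + bf Ψ u' x • u := by
  have key : ∀ a b : d → ℂ, vecMulVec a (b ᵥ* Ψ) *ᵥ x = bf Ψ b x • a := by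
    intro a b
    funext i
    rw [bf_apply, Matrix.dotProduct_mulVec, Pi.smul_apply, smul_eq_mul]
    simp only [Matrix.mulVec, dotProduct, vecMulVec_apply, Finset.sum_mul]
    refine Finset.sum_congr rfl fun j _ => ?_
    ring
  rw [sy, Matrix.add_mulVec, key, key]

theorem sy_mem {Ψ : Matrix d d ℂ} (h : Ψᵀ = -Ψ) (u u' : d → ℂ) : sy Ψ u u' ∈ sk Ψ := by
  change (sy Ψ u u')ᵀ * Ψ + Ψ * sy Ψ u u' = 0
  have e1 : ∀ a : d → ℂ, Ψ *ᵥ a = -(a ᵥ* Ψ) := by
    intro a
    rw [← Matrix.mulVec_transpose, h, Matrix.neg_mulVec, neg_neg]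
  have e2 : ∀ a b : d → ℂ, (vecMulVec a b)ᵀ * Ψ = vecMulVec b (a ᵥ* Ψ) := by
    intro a b
    rw [Matrix.transpose_vecMulVec, Matrix.vecMulVec_mul]
  have e3 : ∀ a b : d → ℂ, Ψ * vecMulVec a b = vecMulVec (Ψ *ᵥ a) b := by
    intro a b
    rw [Matrix.mul_vecMulVec]
  rw [sy, Matrix.transpose_add, add_mul, mul_add, e2, e2, e3, e3, e1, e1,
    Matrix.neg_vecMulVec, Matrix.neg_vecMulVec]
  abel

/-- the projection onto a summand -/
theorem exists_proj {V : ℕ → Submodule ℂ (d → ℂ)} (hi : iSupIndep V) (hs : ⨆ p, V p = ⊤)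
    (q : ℕ) : ∃ π : (d → ℂ) →ₗ[ℂ] (d → ℂ), (∀ x, π x ∈ V q) ∧ (∀ x ∈ V q, π x = x) ∧
      ∀ q', q' ≠ q → ∀ x ∈ V q', π x = 0 := by
  have hc : IsCompl (V q) (⨆ j ≠ q, V j) := by
    refine ⟨hi q, ?_⟩
    rw [codisjoint_iff, ← hs]
    apply le_antisymm
    · exact sup_le (le_iSup V q) (iSup₂_le fun j _ => le_iSup V j)
    · refine iSup_le fun j => ?_
      by_cases hj : j = q
      · rw [hj]
        exact le_sup_left
      · exact le_sup_of_le_right (le_iSup₂_of_le j hj le_rfl)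
  refine ⟨(V q).subtype ∘ₗ Submodule.projectionOnto _ _ hc, fun x => ?_, fun x hx => ?_,
    fun q' hq' x hx => ?_⟩
  · exact Submodule.coe_mem _
  · have := Submodule.projectionOnto_apply_left hc ⟨x, hx⟩
    rw [LinearMap.comp_apply, this]
    rfl
  · have hx' : x ∈ ⨆ j ≠ q, V j := (le_iSup₂_of_le (f := fun j (_ : j ≠ q) => V j) q' hq' le_rfl) hx
    have := (Submodule.projectionOnto_apply_eq_zero_iff hc).2 hx'
    rw [LinearMap.comp_apply, this, map_zero]

/-- the projections -/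
structure Pr (V : ℕ → Submodule ℂ (d → ℂ)) (w : ℕ) (π : ℕ → (d → ℂ) →ₗ[ℂ] (d → ℂ)) : Prop where
  mem : ∀ q x, π q x ∈ V q
  id : ∀ q, ∀ x ∈ V q, π q x = x
  ne : ∀ q q', q' ≠ q → ∀ x ∈ V q', π q x = 0
  sum : ∀ x, ∑ q ∈ Finset.range (w + 1), π q x = x

theorem exists_pr {w : ℕ} {Ψ : Matrix d d ℂ} {V : ℕ → Submodule ℂ (d → ℂ)}
    {g : Submodule ℂ (Matrix d d ℂ)} (hL : HL w Ψ V g) : ∃ π, Pr V w π := by
  choose π h1 h2 h3 using exists_proj hL.indep hL.span
  refine ⟨π, h1, h2, h3, fun x => ?_⟩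
  have hx : x ∈ ⨆ p, V p := by
    rw [hL.span]
    trivial
  induction hx using Submodule.iSup_induction' with
  | mem p x hx =>
    by_cases hp : p ≤ w
    · rw [Finset.sum_eq_single p, h2 p x hx]
      · intro q _ hq
        exact h3 q p (Ne.symm hq) x hx
      · intro h
        exact absurd (Finset.mem_range.2 (by omega)) h
    · rw [hL.top p (by omega), Submodule.mem_bot] at hx
      rw [hx]
      simp
  | zero => simp
  | add x y _ _ hx hy => simp only [map_add, Finset.sum_add_distrib, hx, hy]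

theorem graded_aux {V : ℕ → Submodule ℂ (d → ℂ)} {H : Matrix d d ℂ} {w : ℕ}
    {U : Submodule ℂ (d → ℂ)} (hH : ∀ p, ∀ x ∈ V p, H *ᵥ x = ((p : ℂ) - w / 2) • x)
    (hU : ∀ x ∈ U, H *ᵥ x ∈ U) (S : Finset ℕ) :
    ∀ u : ℕ → d → ℂ, (∀ p ∈ S, u p ∈ V p) → ∑ p ∈ S, u p ∈ U → ∀ p ∈ S, u p ∈ U := by
  induction S using Finset.induction with
  | empty =>
    intro u _ _ p hp
    simp at hp
  | insert q S hq ih =>
    intro u hu hs
    rw [Finset.sum_insert hq] at hs
    have hu' : ∀ p ∈ S, u p ∈ V p := fun p hp => hu p (Finset.mem_insert_of_mem hp)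
    have h1 : ∑ p ∈ S, ((p : ℂ) - q) • u p ∈ U := by
      have h2 : H *ᵥ (u q + ∑ p ∈ S, u p) - ((q : ℂ) - w / 2) • (u q + ∑ p ∈ S, u p) =
          ∑ p ∈ S, ((p : ℂ) - q) • u p := by
        have h3 : H *ᵥ (∑ p ∈ S, u p) = ∑ p ∈ S, ((p : ℂ) - w / 2) • u p := by
          rw [← Matrix.mulVecLin_apply, map_sum]
          refine Finset.sum_congr rfl fun p hp => ?_
          rw [Matrix.mulVecLin_apply, hH p _ (hu' p hp)]
        rw [Matrix.mulVec_add, hH q _ (hu q (Finset.mem_insert_self _ _)), smul_add, h3,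
          Finset.smul_sum, add_sub_add_left_eq_sub, ← Finset.sum_sub_distrib]
        refine Finset.sum_congr rfl fun p _ => ?_
        rw [← sub_smul]
        congr 1
        ring
      rw [← h2]
      exact U.sub_mem (hU _ hs) (U.smul_mem _ hs)
    have h3 := ih (fun p => ((p : ℂ) - q) • u p) (fun p hp => (V p).smul_mem _ (hu' p hp)) h1
    have h4 : ∀ p ∈ S, u p ∈ U := by
      intro p hp
      have hpq : (p : ℂ) - q ≠ 0 := by
        rw [sub_ne_zero]
        intro h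
        have : p = q := by exact_mod_cast h
        exact hq (this ▸ hp)
      exact (U.smul_mem_iff hpq).1 (h3 p hp)
    intro p hp
    rcases Finset.mem_insert.1 hp with rfl | hp
    · have := U.sub_mem hs (U.sum_mem h4)
      rwa [add_sub_cancel_right] at this
    · exact h4 p hp

section HL

variable {w : ℕ} {Ψ : Matrix d d ℂ} {V : ℕ → Submodule ℂ (d → ℂ)}
  {g : Submodule ℂ (Matrix d d ℂ)} {π : ℕ → (d → ℂ) →ₗ[ℂ] (d → ℂ)} {U U' : Submodule ℂ (d → ℂ)}

theorem stab_proj (hL : HL w Ψ V g) (hπ : Pr V w π) (hU : Stab g U) (x : d → ℂ) (hx : x ∈ U)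
    (q : ℕ) : π q x ∈ U := by
  obtain ⟨H, hH, hH'⟩ := hL.hh
  by_cases hq : q ≤ w
  · refine graded_aux hH' (hU H hH) (Finset.range (w + 1)) (fun q => π q x)
      (fun q _ => hπ.mem q x) ?_ q (Finset.mem_range.2 (by omega))
    rw [hπ.sum x]
    exact hx
  · have h1 := hπ.mem q x
    rw [hL.top q (by omega), Submodule.mem_bot] at h1
    rw [h1]
    exact U.zero_mem

/-- pairing with a summand -/
theorem bf_proj (hL : HL w Ψ V g) (hπ : Pr V w π) (x : d → ℂ) {p : ℕ} (hp : p ≤ w) {v : d → ℂ}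
    (hv : v ∈ V (w - p)) : bf Ψ x v = bf Ψ (π p x) v := by
  conv_lhs => rw [← hπ.sum x]
  rw [map_sum, LinearMap.sum_apply, Finset.sum_eq_single p]
  · intro q _ hq
    rw [bf_apply]
    exact hL.orth q (w - p) (by omega) _ (hπ.mem q x) _ hv
  · intro h
    exact absurd (Finset.mem_range.2 (by omega)) h

theorem nondeg (hL : HL w Ψ V g) (hπ : Pr V w π) (hU : Stab g U) (hU' : Stab g U')
    (hc : IsCompl U U') (ho : ∀ x ∈ U, ∀ y ∈ U', bf Ψ x y = 0) {p : ℕ} (hp : p ≤ w)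
    {z : d → ℂ} (hz : z ∈ U) (hz' : z ∈ V p) (h : ∀ v ∈ U, v ∈ V (w - p) → bf Ψ z v = 0) :
    z = 0 := by
  by_contra hne
  obtain ⟨t, ht, ht'⟩ := hL.pos p hp z hz' hne
  have h1 : star z ∈ V (w - p) := hL.conj p hp z hz'
  have h2 : star z ∈ U ⊔ U' := by
    rw [hc.sup_eq_top]
    trivial
  obtain ⟨a, ha, b, hb, hab⟩ := Submodule.mem_sup.1 h2
  have h3 : star z = π (w - p) a + π (w - p) b := by
    rw [← map_add, hab, hπ.id _ _ h1]
  have h4 : bf Ψ z (star z) = 0 := by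
    rw [h3, map_add, h _ (stab_proj hL hπ hU a ha _) (hπ.mem _ _),
      ho z hz _ (stab_proj hL hπ hU' b hb _), add_zero]
  rw [← bf_apply, h4, mul_zero] at ht'
  have : t = 0 := by exact_mod_cast ht'.symm
  linarith

theorem rank_le (hL : HL w Ψ V g) (hπ : Pr V w π) (hU : Stab g U) (hU' : Stab g U')
    (hc : IsCompl U U') (ho : ∀ x ∈ U, ∀ y ∈ U', bf Ψ x y = 0) {p : ℕ} (hp : p ≤ w) :
    Module.finrank ℂ ↥(U ⊓ V p) ≤ Module.finrank ℂ ↥(U ⊓ V (w - p)) := by
  obtain ⟨φ, hφ⟩ : ∃ φ : ↥(U ⊓ V p) →ₗ[ℂ] Module.Dual ℂ ↥(U ⊓ V (w - p)),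
      ∀ z v, φ z v = bf Ψ z v :=
    ⟨(Submodule.dualRestrict (U ⊓ V (w - p))) ∘ₗ (bf Ψ) ∘ₗ (U ⊓ V p).subtype, fun z v => rfl⟩
  have hinj : Function.Injective φ := by
    rw [injective_iff_map_eq_zero]
    intro z hz
    have h1 := nondeg hL hπ hU hU' hc ho hp (z := (z : d → ℂ)) z.2.1 z.2.2 (fun v hv hv' => by
      rw [← hφ z ⟨v, hv, hv'⟩, hz]
      rfl)
    exact Subtype.ext h1
  calc Module.finrank ℂ ↥(U ⊓ V p) ≤ Module.finrank ℂ (Module.Dual ℂ ↥(U ⊓ V (w - p))) :=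
        LinearMap.finrank_le_finrank_of_injective hinj
    _ = _ := Subspace.dual_finrank_eq

theorem rank_eq (hL : HL w Ψ V g) (hπ : Pr V w π) (hU : Stab g U) (hU' : Stab g U')
    (hc : IsCompl U U') (ho : ∀ x ∈ U, ∀ y ∈ U', bf Ψ x y = 0) {p : ℕ} (hp : p ≤ w) :
    Module.finrank ℂ ↥(U ⊓ V (w - p)) = Module.finrank ℂ ↥(U ⊓ V p) := by
  apply le_antisymm
  · have h1 := rank_le hL hπ hU hU' hc ho (p := w - p) (Nat.sub_le _ _)
    rwa [Nat.sub_sub_self hp] at h1
  · exact rank_le hL hπ hU hU' hc ho hp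

/-- a basis adapted to the grading -/
theorem exists_fam (hπ : Pr V w π) (hgr : ∀ x ∈ U, ∀ q, π q x ∈ U) :
    ∃ (I : Type) (_ : Fintype I) (e : I → d → ℂ) (lev : I → ℕ), LinearIndependent ℂ e ∧
      (∀ a, e a ∈ U) ∧ (∀ a, e a ∈ V (lev a)) ∧
      (∀ F : ℕ → ℕ, ∑ a, F (lev a) =
        ∑ p ∈ Finset.range (w + 1), Module.finrank ℂ ↥(U ⊓ V p) * F p) ∧
      U ≤ Submodule.span ℂ (Set.range e) := by
  refine ⟨Σ p : Fin (w + 1), Fin (Module.finrank ℂ ↥(U ⊓ V p)), inferInstance,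
    fun a => (Module.finBasis ℂ ↥(U ⊓ V a.1) a.2 : d → ℂ), fun a => a.1, ?_, ?_, ?_, ?_, ?_⟩
  · rw [Fintype.linearIndependent_iff]
    rintro c hc ⟨p, i⟩
    have h1 := congrArg (π p) hc
    rw [map_zero, map_sum, Fintype.sum_sigma, Finset.sum_eq_single p] at h1
    · have h2 : ∑ j, c ⟨p, j⟩ • Module.finBasis ℂ ↥(U ⊓ V p) j = 0 := by
        apply Subtype.ext
        rw [Submodule.coe_sum, Submodule.coe_zero, ← h1]
        refine Finset.sum_congr rfl fun j _ => ?_
        rw [map_smul, hπ.id p _ (Module.finBasis ℂ ↥(U ⊓ V p) j).2.2]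
        rfl
      exact Fintype.linearIndependent_iff.1 (Module.finBasis ℂ ↥(U ⊓ V p)).linearIndependent _ h2 i
    · intro q _ hq
      refine Finset.sum_eq_zero fun j _ => ?_
      rw [map_smul, hπ.ne p q (fun h => hq (Fin.ext h)) _
        (Module.finBasis ℂ ↥(U ⊓ V q) j).2.2, smul_zero]
    · intro h
      exact absurd (Finset.mem_univ _) h
  · intro a
    exact (Module.finBasis ℂ ↥(U ⊓ V a.1) a.2).2.1
  · intro a
    exact (Module.finBasis ℂ ↥(U ⊓ V a.1) a.2).2.2
  · intro F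
    rw [Fintype.sum_sigma, Finset.sum_range]
    refine Finset.sum_congr rfl fun p _ => ?_
    have h1 : ∀ y : Fin (Module.finrank ℂ ↥(U ⊓ V p)),
        F ((fun a : Σ p : Fin (w + 1), Fin (Module.finrank ℂ ↥(U ⊓ V p)) => (a.1 : ℕ)) ⟨p, y⟩) =
          F p := fun _ => rfl
    rw [Finset.sum_congr rfl fun y _ => h1 y, Finset.sum_const, Finset.card_univ,
      Fintype.card_fin, smul_eq_mul]
  · intro x hx
    rw [← hπ.sum x]
    refine Submodule.sum_mem _ fun q hq => ?_
    rw [Finset.mem_range] at hq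
    have h1 : π q x ∈ U ⊓ V q := ⟨hgr x hx q, hπ.mem q x⟩
    have h2 := (Module.finBasis ℂ ↥(U ⊓ V q)).sum_repr ⟨π q x, h1⟩
    have h3 := congrArg (Submodule.subtype _) h2
    rw [map_sum] at h3
    have h4 : π q x = ∑ j, (Module.finBasis ℂ ↥(U ⊓ V q)).repr ⟨π q x, h1⟩ j •
        (Module.finBasis ℂ ↥(U ⊓ V q) j : d → ℂ) := by
      refine (Eq.trans ?_ h3).symm
      refine Finset.sum_congr rfl fun j _ => ?_
      rw [map_smul]
      rfl
    rw [h4]
    refine Submodule.sum_mem _ fun j _ => Submodule.smul_mem _ _ (Submodule.subset_span ?_)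
    exact ⟨⟨⟨q, hq⟩, j⟩, rfl⟩

/-- the products are independent modulo `g ⊔ F0` -/
theorem indep_main (hL : HL w Ψ V g) (hπ : Pr V w π) (hU : Stab g U) (hU' : Stab g U')
    (hc : IsCompl U U') (ho : ∀ x ∈ U, ∀ y ∈ U', bf Ψ x y = 0) {I J : Type} [Fintype I]
    [Fintype J] {e : I → d → ℂ} {e' : J → d → ℂ} {lev : I → ℕ} {lev' : J → ℕ}
    (he : LinearIndependent ℂ e) (he' : LinearIndependent ℂ e') (hm : ∀ a, e a ∈ U)
    (hml : ∀ a, e a ∈ V (lev a)) (hm' : ∀ b, e' b ∈ U') (hml' : ∀ b, e' b ∈ V (lev' b))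
    (c : I → J → ℂ) (hc0 : ∀ a b, ¬ (lev a + lev' b < w) → c a b = 0)
    (hM : ∑ a, ∑ b, c a b • sy Ψ (e a) (e' b) ∈ g ⊔ F0 V) (a : I) (b : J) : c a b = 0 := by
  obtain ⟨X, hX, A, hA, hXA⟩ := Submodule.mem_sup.1 hM
  obtain ⟨z, hz⟩ : ∃ z : J → d → ℂ, ∀ b, z b = ∑ a, c a b • e a := ⟨_, fun _ => rfl⟩
  have hMv : ∀ v ∈ U, (∑ a, ∑ b, c a b • sy Ψ (e a) (e' b)) *ᵥ v =
      ∑ b, bf Ψ (z b) v • e' b := by
    intro v hv
    rw [Matrix.sum_mulVec]
    have h1 : ∀ a, (∑ b, c a b • sy Ψ (e a) (e' b)) *ᵥ v =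
        ∑ b, (c a b * bf Ψ (e a) v) • e' b := by
      intro a
      rw [Matrix.sum_mulVec]
      refine Finset.sum_congr rfl fun b _ => ?_
      rw [Matrix.smul_mulVec, sy_mulVec, bf_skew hL.skew (e' b) v, ho v hv _ (hm' b), neg_zero,
        zero_smul, add_zero, smul_smul]
    simp only [h1]
    rw [Finset.sum_comm]
    refine Finset.sum_congr rfl fun b _ => ?_
    rw [← Finset.sum_smul, hz b, map_sum, LinearMap.sum_apply]
    simp only [map_smul, LinearMap.smul_apply, smul_eq_mul]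
  have hzU : ∀ b, z b ∈ U := by
    intro b
    rw [hz b]
    exact U.sum_mem fun a _ => U.smul_mem _ (hm a)
  have key : ∀ b p, p ≤ w → p + lev' b < w → ∀ v ∈ U, v ∈ V (w - p) → bf Ψ (z b) v = 0 := by
    intro b p hp hlt v hv hv'
    have h1 : π (lev' b) ((∑ a, ∑ b, c a b • sy Ψ (e a) (e' b)) *ᵥ v) =
        π (lev' b) (X *ᵥ v) := by
      rw [← hXA, Matrix.add_mulVec, map_add]
      have h2 : A *ᵥ v ∈ Fil V (w - p) := by
        refine hA (w - p) v ?_
        exact (le_iSup₂_of_le (f := fun p' (_ : p' ∈ Set.Ici (w - p)) => V p') (w - p)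
          (Set.mem_Ici.2 le_rfl) le_rfl) hv'
      have h3 : Fil V (w - p) ≤ LinearMap.ker (π (lev' b)) := by
        refine iSup₂_le fun p' hp' x hx => ?_
        rw [Set.mem_Ici] at hp'
        exact hπ.ne _ p' (by omega) x hx
      rw [LinearMap.mem_ker.1 (h3 h2), add_zero]
    have h2 : π (lev' b) (X *ᵥ v) ∈ U := stab_proj hL hπ hU _ (hU X hX v hv) _
    have h3 : π (lev' b) ((∑ a, ∑ b, c a b • sy Ψ (e a) (e' b)) *ᵥ v) =
        ∑ b', (if lev' b' = lev' b then bf Ψ (z b') v else 0) • e' b' := by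
      rw [hMv v hv, map_sum]
      refine Finset.sum_congr rfl fun b' _ => ?_
      rw [map_smul]
      by_cases hb : lev' b' = lev' b
      · rw [if_pos hb, hπ.id _ _ (hb ▸ hml' b')]
      · rw [if_neg hb, hπ.ne _ _ hb _ (hml' b'), smul_zero, zero_smul]
    have h4 : (∑ b', (if lev' b' = lev' b then bf Ψ (z b') v else 0) • e' b') ∈ U' :=
      U'.sum_mem fun b' _ => U'.smul_mem _ (hm' b')
    have h5 : (∑ b', (if lev' b' = lev' b then bf Ψ (z b') v else 0) • e' b') = 0 := by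
      have h6 : (∑ b', (if lev' b' = lev' b then bf Ψ (z b') v else 0) • e' b') ∈ U ⊓ U' := by
        refine ⟨?_, h4⟩
        rw [← h3, h1]
        exact h2
      rw [hc.inf_eq_bot, Submodule.mem_bot] at h6
      exact h6
    have h6 := Fintype.linearIndependent_iff.1 he' _ h5 b
    rwa [if_pos rfl] at h6
  have hz0 : ∀ b, z b = 0 := by
    intro b
    rw [← hπ.sum (z b)]
    refine Finset.sum_eq_zero fun p hp => ?_
    rw [Finset.mem_range] at hp
    by_cases hlt : p + lev' b < w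
    · refine nondeg hL hπ hU hU' hc ho (by omega) (stab_proj hL hπ hU _ (hzU b) p) (hπ.mem _ _)
        fun v hv hv' => ?_
      rw [← bf_proj hL hπ _ (by omega) hv']
      exact key b p (by omega) hlt v hv hv'
    · rw [hz b, map_sum]
      refine Finset.sum_eq_zero fun a _ => ?_
      rw [map_smul]
      by_cases ha : lev a = p
      · rw [hc0 a b (by omega), zero_smul]
      · rw [hπ.ne p (lev a) ha _ (hml a), smul_zero]
  have h1 := hz0 b
  rw [hz b] at h1
  exact Fintype.linearIndependent_iff.1 he _ h1 a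

end HL

/-- SPL -/
theorem spl (num : NumStmt) : SplStmt := by
  classical
  intro d _ _ w Ψ V g hL κ m hκ hdep U U' hU hU' hU0 hU0' hc ho
  obtain ⟨π, hπ⟩ := exists_pr hL
  have ho1 : ∀ x ∈ U, ∀ y ∈ U', bf Ψ x y = 0 := fun x hx y hy => by
    rw [bf_apply]
    exact ho x hx y hy
  have ho2 : ∀ x ∈ U', ∀ y ∈ U, bf Ψ x y = 0 := fun x hx y hy => by
    rw [bf_skew hL.skew, ho1 y hy x hx, neg_zero]
  obtain ⟨I, _, e, lev, he, hm, hml, hF, hsp⟩ := exists_fam hπ (stab_proj hL hπ hU)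
  obtain ⟨J, _, e', lev', he', hm', hml', hF', hsp'⟩ := exists_fam hπ (stab_proj hL hπ hU')
  -- the number of products
  have hcard : Fintype.card {t : I × J // lev t.1 + lev' t.2 < w} ≤ m := by
    by_contra hcon
    push Not at hcon
    obtain ⟨ε⟩ : Nonempty (Fin (m + 1) ↪ {t : I × J // lev t.1 + lev' t.2 < w}) :=
      Function.Embedding.nonempty_of_card_le (by rw [Fintype.card_fin]; exact hcon)
    obtain ⟨l, hl, hl'⟩ := hdep (fun j => sy Ψ (e (ε j).1.1) (e' (ε j).1.2))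
      (fun j => sy_mem hL.skew _ _)
    apply hl
    obtain ⟨c, hcdef⟩ : ∃ c : I → J → ℂ, ∀ a b, c a b = ∑ j, if (ε j).1 = (a, b) then l j else 0 :=
      ⟨_, fun _ _ => rfl⟩
    have hc0 : ∀ a b, ¬ (lev a + lev' b < w) → c a b = 0 := by
      intro a b hab
      rw [hcdef]
      refine Finset.sum_eq_zero fun j _ => ?_
      rw [if_neg]
      intro h
      apply hab
      have := (ε j).2
      rw [h] at this
      exact this
    have hsum : ∑ a, ∑ b, c a b • sy Ψ (e a) (e' b) =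
        ∑ j, l j • sy Ψ (e (ε j).1.1) (e' (ε j).1.2) := by
      have h1 : ∀ a b, c a b • sy Ψ (e a) (e' b) =
          ∑ j, if (ε j).1 = (a, b) then l j • sy Ψ (e a) (e' b) else 0 := by
        intro a b
        rw [hcdef, Finset.sum_smul]
        refine Finset.sum_congr rfl fun j _ => ?_
        split_ifs
        · rfl
        · rw [zero_smul]
      simp only [h1]
      rw [← Finset.sum_product', Finset.sum_comm]
      refine Finset.sum_congr rfl fun j _ => ?_
      rw [Finset.sum_eq_single (ε j).1]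
      · rw [if_pos rfl]
      · intro t _ ht
        rw [if_neg]
        intro h
        exact ht h.symm
      · intro h
        exact absurd (Finset.mem_univ _) h
    have hzero := indep_main hL hπ hU hU' hc ho1 he he' hm hml hm' hml' c hc0 (by
      rw [hsum]
      exact hl')
    funext j
    have h1 := hzero (ε j).1.1 (ε j).1.2
    rw [hcdef, Finset.sum_eq_single j] at h1
    · rwa [if_pos rfl] at h1
    · intro i _ hi
      rw [if_neg]
      intro h
      exact hi (ε.injective (Subtype.ext h))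
    · intro h
      exact absurd (Finset.mem_univ _) h
  have hcount : Fintype.card {t : I × J // lev t.1 + lev' t.2 < w} =
      ∑ p ∈ Finset.range (w + 1), ∑ q ∈ Finset.range (w + 1),
        if p + q < w then Module.finrank ℂ ↥(U ⊓ V p) * Module.finrank ℂ ↥(U' ⊓ V q) else 0 := by
    rw [Fintype.card_subtype, Finset.card_filter, ← Finset.univ_product_univ, Finset.sum_product]
    have h1 := hF fun p => ∑ b : J, if p + lev' b < w then 1 else 0
    rw [h1]
    refine Finset.sum_congr rfl fun p _ => ?_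
    have h2 := hF' fun q => if p + q < w then 1 else 0
    rw [h2, Finset.mul_sum]
    refine Finset.sum_congr rfl fun q _ => ?_
    split_ifs
    · ring
    · ring
  -- ranks
  have hx1 := hF fun _ => 1
  have hy1 := hF' fun _ => 1
  simp only [Finset.sum_const, Finset.card_univ, smul_eq_mul, mul_one] at hx1 hy1
  have hI : 1 ≤ Fintype.card I := by
    by_contra h
    have hI0 : IsEmpty I := Fintype.card_eq_zero_iff.1 (by omega)
    apply hU0
    rw [eq_bot_iff]
    refine hsp.trans ?_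
    rw [Set.range_eq_empty, Submodule.span_empty]
  have hJ : 1 ≤ Fintype.card J := by
    by_contra h
    have hJ0 : IsEmpty J := Fintype.card_eq_zero_iff.1 (by omega)
    apply hU0'
    rw [eq_bot_iff]
    refine hsp'.trans ?_
    rw [Set.range_eq_empty, Submodule.span_empty]
  have hd : Fintype.card d ≤ Fintype.card I + Fintype.card J := by
    have h1 : (⊤ : Submodule ℂ (d → ℂ)) ≤
        Submodule.span ℂ (Set.range (Sum.elim e e')) := by
      rw [← hc.sup_eq_top, Set.Sum.elim_range, Submodule.span_union]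
      exact sup_le_sup hsp hsp'
    have h2 := finrank_range_le_card (R := ℂ) (Sum.elim e e')
    rw [Set.finrank, top_le_iff.1 h1, finrank_top, Module.finrank_fintype_fun_eq_card,
      Fintype.card_sum] at h2
    exact h2
  obtain ⟨k, hk⟩ := hL.odd
  subst hk
  have hκ' : ∀ p, Module.finrank ℂ ↥(U ⊓ V p) + Module.finrank ℂ ↥(U' ⊓ V p) ≤ κ := by
    intro p
    have h1 := Submodule.finrank_sup_add_finrank_inf_eq (U ⊓ V p) (U' ⊓ V p)
    have h2 : (U ⊓ V p) ⊓ (U' ⊓ V p) = ⊥ := by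
      rw [eq_bot_iff, ← hc.inf_eq_bot]
      exact inf_le_inf inf_le_left inf_le_left
    rw [h2, finrank_bot, add_zero] at h1
    rw [← h1]
    refine le_trans (Submodule.finrank_mono ?_) (hκ p)
    exact sup_le inf_le_right inf_le_right
  have hnum := numer num k κ (fun p => Module.finrank ℂ ↥(U ⊓ V p))
    (fun p => Module.finrank ℂ ↥(U' ⊓ V p))
    (fun p hp => rank_eq hL hπ hU hU' hc ho1 hp)
    (fun p hp => rank_eq hL hπ hU' hU hc.symm ho2 hp) hκ'
    (by rw [← hx1]; exact hI) (by rw [← hy1]; exact hJ)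
  rw [← hcount, ← hx1, ← hy1] at hnum
  omega

end Pool.Agent.MTF.H3
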